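import Pool.Agent.Lib.H57S.S4

/-!
# Chunk S5: good levels in every interval `[(log Y)^K, exp (√(log Y))]`
-/

open Finset

namespace Pool.Agent.Lib.H57S

open Pool.Agent.Lib.H68T

open Filter in
theorem S5_growth (K : ℝ) : ∃ x₀ : ℝ, 1 ≤ x₀ ∧ ∀ x : ℝ, x₀ ≤ x →
    x ^ (2 * K) + 1 ≤ Real.exp x ∧ Real.exp (x / 2) + 1 ≤ Real.exp x := by
  have h1 := tendsto_rpow_mul_exp_neg_mul_atTop_nhds_zero (2 * K) 1 one_pos
  have h2 : ∀ᶠ x : ℝ in atTop, x ^ (2 * K) * Real.exp (-1 * x) < 1 / 2 :=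
    h1.eventually (gt_mem_nhds (by norm_num))
  obtain ⟨x₁, hx₁⟩ := eventually_atTop.1 h2
  refine ⟨max x₁ 2, by simp, fun x hx => ?_⟩
  have hx1 : x₁ ≤ x := (le_max_left _ _).trans hx
  have hx2 : 2 ≤ x := (le_max_right _ _).trans hx
  have h3 := hx₁ x hx1
  have e1 : Real.exp (-1 * x) * Real.exp x = 1 := by rw [← Real.exp_add]; simp
  have ep := Real.exp_pos x
  have h4 : x ^ (2 * K) < Real.exp x / 2 := by
    have := mul_lt_mul_of_pos_right h3 ep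
    rw [mul_assoc, e1, mul_one] at this
    linarith
  have h5 : 2 ≤ Real.exp (x / 2) := by
    have := Real.add_one_le_exp (x / 2)
    linarith
  have h6 : Real.exp x = Real.exp (x / 2) * Real.exp (x / 2) := by
    rw [← Real.exp_add]; congr 1; ring
  constructor
  · nlinarith
  · nlinarith

/-- `c, K₀` from `good_below`. Given `K` (wlog `K ≥ 1`), let `Q₁ = ⌊exp (√(log Y))⌋₊`. If `Good c Q₁`,
take `Q = Q₁`. Otherwise there are `r ≤ Q₁`, `ψ` primitive real `≠ 1` and a zero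
`σ ∈ [1 - c/log Q₁, 1)` (`σ ≠ 1` by `DirichletCharacter.LFunction_ne_zero_of_one_le_re`), i.e.
`Exc c Q₁ r ψ σ`. By `siegel` with `ε = 1/(4 (K+1))`: `c_ε/r^ε < 1 - σ ≤ c/log Q₁`, so
`r^ε > (c_ε/c) log Q₁ ≥ (c_ε/(2c)) √(log Y)` and `r ≥ (c_ε/(2c))^(4(K+1)) (log Y)^(2(K+1)) ≥
(log Y)^K + K₀ + 1` for `Y ≥ Y₀`. By `good_below`, `Q = r - 1` works. -/
theorem good_level : ∃ c : ℝ, 0 < c ∧ ∀ K : ℝ, ∃ Y0 : ℝ, ∀ Y : ℝ, Y0 ≤ Y → ∃ Q : ℕ,
    (Real.log Y) ^ K ≤ Q ∧ (Q : ℝ) ≤ Real.exp (Real.sqrt (Real.log Y)) ∧ Good c Q := by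
  obtain ⟨c, K₀, hc, hbelow⟩ := good_below
  refine ⟨c, hc, fun K => ?_⟩
  set K' : ℝ := max K 1 with hK'
  have hK1 : 1 ≤ K' := le_max_right _ _
  have hKK : K ≤ K' := le_max_left _ _
  obtain ⟨cε, hcε, hS⟩ := siegel (1 / (4 * (K' + 1))) (by positivity)
  obtain ⟨x₀, hx₀1, hx₀⟩ := S5_growth K
  set A : ℝ := (cε / (2 * c)) ^ (4 * (K' + 1)) with hA
  have hAp : 0 < A := Real.rpow_pos_of_pos (by positivity) _
  set x₂ : ℝ := max x₀ ((3 + |K₀|) / A) with hx₂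
  refine ⟨Real.exp (x₂ ^ 2), fun Y hY => ?_⟩
  have hx₂1 : 1 ≤ x₂ := hx₀1.trans (le_max_left _ _)
  have hYp : 0 < Y := (Real.exp_pos _).trans_le hY
  have hL : x₂ ^ 2 ≤ Real.log Y := by rwa [Real.le_log_iff_exp_le hYp]
  set x : ℝ := Real.sqrt (Real.log Y) with hx
  have hL0 : 0 ≤ Real.log Y := (by positivity : (0:ℝ) ≤ x₂ ^ 2).trans hL
  have hxx : x ^ 2 = Real.log Y := Real.sq_sqrt hL0
  have hx2 : x₂ ≤ x := Real.le_sqrt_of_sq_le hL
  have hx1 : 1 ≤ x := hx₂1.trans hx2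
  have hx0 : 0 ≤ x := by linarith
  have hLK : (Real.log Y) ^ K = x ^ (2 * K) := by
    rw [← hxx, ← Real.rpow_natCast, ← Real.rpow_mul hx0]; norm_num
  obtain ⟨g1, g2⟩ := hx₀ x ((le_max_left _ _).trans hx2)
  have g3 : 3 + |K₀| ≤ A * x := by
    have : (3 + |K₀|) / A ≤ x := (le_max_right _ _).trans hx2
    rw [div_le_iff₀ hAp] at this
    linarith
  set Q₁ : ℕ := ⌊Real.exp x⌋₊ with hQ₁
  have q1 : (Q₁ : ℝ) ≤ Real.exp x := Nat.floor_le (Real.exp_pos _).le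
  have q2 : Real.exp x < Q₁ + 1 := Nat.lt_floor_add_one _
  by_cases hG : Good c Q₁
  · refine ⟨Q₁, ?_, q1, hG⟩
    rw [hLK]; linarith
  · unfold Good at hG
    push Not at hG
    obtain ⟨r, _, ψ, hrQ, hp, hn, hs, σ, hσ, hσ1, hz⟩ := hG
    have hσne : σ < 1 := by
      rcases hσ1.lt_or_eq with h | h
      · exact h
      · subst h
        exact absurd hz (DirichletCharacter.LFunction_ne_zero_of_one_le_re ψ (Or.inl hn) (by simp))
    have hexc : Exc c Q₁ r ψ σ := ⟨hrQ, hp, hn, hs, hσ, hσne, hz⟩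
    have hr : (1 : ℝ) ≤ r := by
      have : 0 < r := Nat.pos_of_ne_zero (NeZero.ne r)
      exact_mod_cast this
    have hr0 : (0 : ℝ) < r := by linarith
    set ε : ℝ := 1 / (4 * (K' + 1)) with hε
    have hεp : 0 < ε := by positivity
    have h1 : cε / (r : ℝ) ^ ε < 1 - σ := by
      by_contra hcon
      push Not at hcon
      exact hS r ψ hp hn hs σ (by linarith) hσ1 hz
    have hlogQ : x / 2 ≤ Real.log Q₁ := by
      have h2 : Real.exp (x / 2) ≤ Q₁ := by linarith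
      have h3 : (0 : ℝ) < Q₁ := (Real.exp_pos _).trans_le h2
      rwa [Real.le_log_iff_exp_le h3]
    have hlogQp : 0 < Real.log Q₁ := by linarith
    have hrε : 0 < (r : ℝ) ^ ε := Real.rpow_pos_of_pos hr0 _
    have h4 : cε / (r : ℝ) ^ ε < c / Real.log Q₁ := by linarith
    have h5 : cε / (2 * c) * x < (r : ℝ) ^ ε := by
      rw [div_lt_div_iff₀ hrε hlogQp] at h4
      have h6 : cε * (x / 2) < c * (r : ℝ) ^ ε :=
        lt_of_le_of_lt (mul_le_mul_of_nonneg_left hlogQ hcε.le) h4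
      have h7 : cε / (2 * c) * x = (cε * (x / 2)) / c := by field_simp
      rw [h7, div_lt_iff₀ hc]
      linarith
    have h8 : A * x ^ (4 * (K' + 1)) ≤ r := by
      have h9 : (cε / (2 * c) * x) ^ (4 * (K' + 1)) ≤ ((r : ℝ) ^ ε) ^ (4 * (K' + 1)) :=
        Real.rpow_le_rpow (by positivity) h5.le (by positivity)
      rw [Real.mul_rpow (by positivity) hx0, ← Real.rpow_mul hr0.le] at h9
      have h10 : ε * (4 * (K' + 1)) = 1 := by rw [hε]; field_simp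
      rw [h10, Real.rpow_one] at h9
      exact h9
    have h11 : x ^ (4 * (K' + 1)) = x ^ (2 * K') * x ^ (2 * K' + 4) := by
      rw [← Real.rpow_add (by linarith)]; congr 1; ring
    have h12 : x ≤ x ^ (2 * K' + 4) := by
      calc x = x ^ (1 : ℝ) := (Real.rpow_one x).symm
        _ ≤ _ := Real.rpow_le_rpow_of_exponent_le hx1 (by linarith)
    have h13 : 1 ≤ x ^ (2 * K') := Real.one_le_rpow hx1 (by linarith)
    have h14 : x ^ (2 * K) ≤ x ^ (2 * K') :=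
      Real.rpow_le_rpow_of_exponent_le hx1 (by linarith)
    have h15 : x ^ (2 * K') * (3 + |K₀|) ≤ r := by
      calc x ^ (2 * K') * (3 + |K₀|) ≤ x ^ (2 * K') * (A * x) :=
            mul_le_mul_of_nonneg_left g3 (by linarith)
        _ ≤ x ^ (2 * K') * (A * x ^ (2 * K' + 4)) := by gcongr
        _ = A * x ^ (4 * (K' + 1)) := by rw [h11]; ring
        _ ≤ r := h8
    have hKa : 0 ≤ |K₀| := abs_nonneg _
    have hKb : K₀ ≤ |K₀| := le_abs_self _
    have h16 : x ^ (2 * K) + 1 + |K₀| ≤ r := by nlinarith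
    have h17 : (0 : ℝ) ≤ x ^ (2 * K) := Real.rpow_nonneg hx0 _
    have hgood := hbelow Q₁ r ψ σ (by linarith) hexc
    have hr1 : 1 ≤ r := by exact_mod_cast hr
    have hcast : ((r - 1 : ℕ) : ℝ) = (r : ℝ) - 1 := by push_cast [Nat.cast_sub hr1]; ring
    refine ⟨r - 1, ?_, ?_, hgood⟩
    · rw [hLK, hcast]; linarith
    · rw [hcast]
      have : (r : ℝ) ≤ Q₁ := by exact_mod_cast hrQ
      linarith

end Pool.Agent.Lib.H57S
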