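import Pool.Agent.Lib.H68X.XEX
import Pool.Agent.Lib.H68X.XRL
import Pool.Agent.Lib.H68X.XSIE

/-!
# Project H57S: Siegel's theorem on the real zeros of real characters, and good levels

`ζ(s) L(s,ψ₁) L(s,ψ₂) L(s,ψ₁ψ₂)` (Estermann's proof).
-/

open Finset

namespace Pool.Agent.Lib.H57S

open Pool.Agent.Lib.H68T

/-- The product of two characters, at the level `r₁ r₂`. -/
noncomputable def prodc {r₁ r₂ : ℕ} (ψ₁ : DirichletCharacter ℂ r₁) (ψ₂ : DirichletCharacter ℂ r₂) :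
    DirichletCharacter ℂ (r₁ * r₂) :=
  DirichletCharacter.changeLevel (Dvd.intro r₂ rfl) ψ₁ *
    DirichletCharacter.changeLevel (Dvd.intro_left r₁ rfl) ψ₂

/-- The product of two different primitive real characters is not principal. -/
theorem prodc_ne_one (r₁ r₂ : ℕ) [NeZero r₁] [NeZero r₂] (ψ₁ : DirichletCharacter ℂ r₁)
    (ψ₂ : DirichletCharacter ℂ r₂) (hp₁ : ψ₁.IsPrimitive) (hp₂ : ψ₂.IsPrimitive)
    (h₂ : ψ₂ ^ 2 = 1)
    (hne : (⟨r₁, ψ₁⟩ : Σ r : ℕ, DirichletCharacter ℂ r) ≠ ⟨r₂, ψ₂⟩) : prodc ψ₁ ψ₂ ≠ 1 :=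
  PAGE1_ne_one r₁ r₂ ψ₁ ψ₂ hp₁ hp₂ h₂ hne

/-- The value of the product character. -/
theorem prodc_apply {r₁ r₂ : ℕ} [NeZero r₁] [NeZero r₂] (ψ₁ : DirichletCharacter ℂ r₁)
    (ψ₂ : DirichletCharacter ℂ r₂) (n : ℕ) :
    prodc ψ₁ ψ₂ (n : ZMod (r₁ * r₂)) = ψ₁ (n : ZMod r₁) * ψ₂ (n : ZMod r₂) := by
  by_cases hn : IsUnit (n : ZMod (r₁ * r₂))
  · obtain ⟨u, hu⟩ := hn
    unfold prodc
    rw [MulChar.mul_apply, ← hu, DirichletCharacter.changeLevel_eq_cast_of_dvd,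
      DirichletCharacter.changeLevel_eq_cast_of_dvd, hu]
    rw [ZMod.cast_natCast (Dvd.intro r₂ rfl), ZMod.cast_natCast (Dvd.intro_left r₁ rfl)]
  · have h1 : prodc ψ₁ ψ₂ (n : ZMod (r₁ * r₂)) = 0 := MulChar.map_nonunit _ hn
    rw [h1]
    rw [ZMod.isUnit_iff_coprime, Nat.coprime_mul_iff_right, not_and_or] at hn
    rcases hn with hn | hn
    · rw [MulChar.map_nonunit ψ₁ (by rwa [ZMod.isUnit_iff_coprime]), zero_mul]
    · rw [MulChar.map_nonunit ψ₂ (by rwa [ZMod.isUnit_iff_coprime]), mul_zero]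

end Pool.Agent.Lib.H57S
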