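import Pool.Agent.Lib.H57S.Defs

/-!
# Chunk S1: the coefficients of `ζ(s) L(s,ψ₁) L(s,ψ₂) L(s,ψ₁ψ₂)` are non-negative
-/

open Finset

namespace Pool.Agent.Lib.H57S

open Pool.Agent.Lib.H68T

open scoped ComplexOrder

/-- the character as an arithmetic function -/
noncomputable def S1_X {r : ℕ} (ψ : DirichletCharacter ℂ r) : ArithmeticFunction ℂ :=
  toArithmeticFunction (fun n : ℕ => ψ (n : ZMod r))

theorem S1_X_apply {r : ℕ} (ψ : DirichletCharacter ℂ r) {n : ℕ} (hn : n ≠ 0) :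
    S1_X ψ n = ψ (n : ZMod r) :=
  (ψ.apply_eq_toArithmeticFunction_apply hn).symm

theorem S1_X_mult {r : ℕ} (ψ : DirichletCharacter ℂ r) : (S1_X ψ).IsMultiplicative :=
  DirichletCharacter.isMultiplicative_toArithmeticFunction ψ

theorem S1_zetaMul {r : ℕ} (ψ : DirichletCharacter ℂ r) :
    ψ.zetaMul = (ArithmeticFunction.zeta : ArithmeticFunction ℂ) * S1_X ψ := rfl

theorem S1_pair {r s t : ℕ} (ψ : DirichletCharacter ℂ r) (φ : DirichletCharacter ℂ s)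
    (χ : DirichletCharacter ℂ t)
    (h : ∀ n : ℕ, χ (n : ZMod t) = ψ (n : ZMod r) * φ (n : ZMod s)) {n : ℕ} (hn : n ≠ 0) :
    (S1_X φ * S1_X χ) n = φ (n : ZMod s) * ψ.zetaMul n := by
  rw [S1_zetaMul, ArithmeticFunction.mul_apply, ArithmeticFunction.mul_apply, mul_sum]
  refine sum_congr rfl fun x hx => ?_
  obtain ⟨h1, _⟩ := Nat.mem_divisorsAntidiagonal.1 hx
  have hx1 : x.1 ≠ 0 := by rintro h0; rw [h0, zero_mul] at h1; exact hn h1.symm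
  have hx2 : x.2 ≠ 0 := by rintro h0; rw [h0, mul_zero] at h1; exact hn h1.symm
  rw [S1_X_apply φ hx1, S1_X_apply χ hx2, S1_X_apply ψ hx2, h, ← h1]
  rw [ArithmeticFunction.natCoe_apply, ArithmeticFunction.zeta_apply_ne hx1]
  push_cast
  rw [map_mul]
  ring

theorem S1_mul_pow_nonneg {f g : ArithmeticFunction ℂ} {p : ℕ} (hp : p.Prime)
    (hf : ∀ i, 0 ≤ f (p ^ i)) (hg : ∀ i, 0 ≤ g (p ^ i)) (k : ℕ) : 0 ≤ (f * g) (p ^ k) := by
  rw [ArithmeticFunction.mul_apply]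
  refine sum_nonneg fun x hx => ?_
  obtain ⟨h1, _⟩ := Nat.mem_divisorsAntidiagonal.1 hx
  obtain ⟨i, _, hi⟩ := (Nat.dvd_prime_pow hp).1 (Dvd.intro _ h1)
  obtain ⟨j, _, hj⟩ := (Nat.dvd_prime_pow hp).1 (Dvd.intro_left _ h1)
  rw [hi, hj]
  exact mul_nonneg (hf i) (hg j)

theorem S1_zetaMul_pow {r : ℕ} (ψ : DirichletCharacter ℂ r) {p : ℕ} (hp : p.Prime) (k : ℕ) :
    ψ.zetaMul (p ^ k) = ∑ i ∈ range (k + 1), (ψ (p : ZMod r)) ^ i := by
  rw [S1_zetaMul, ArithmeticFunction.coe_zeta_mul_apply, Nat.sum_divisors_prime_pow hp]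
  refine sum_congr rfl fun i _ => ?_
  rw [S1_X_apply ψ (pow_ne_zero _ hp.ne_zero)]
  push_cast
  rw [map_pow]

/-- the four-fold convolution at prime powers -/
theorem S1_nonneg_pow (r₁ r₂ : ℕ) [NeZero r₁] [NeZero r₂] (ψ₁ : DirichletCharacter ℂ r₁)
    (ψ₂ : DirichletCharacter ℂ r₂) (hs₁ : ψ₁ ^ 2 = 1) (hs₂ : ψ₂ ^ 2 = 1) {p : ℕ} (hp : p.Prime)
    (k : ℕ) : 0 ≤ (ψ₁.zetaMul * (S1_X ψ₂ * S1_X (prodc ψ₁ ψ₂))) (p ^ k) := by
  have hne : ∀ i, p ^ i ≠ 0 := fun i => pow_ne_zero _ hp.ne_zero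
  have p12 : ∀ n : ℕ, prodc ψ₁ ψ₂ (n : ZMod (r₁ * r₂)) =
      ψ₁ (n : ZMod r₁) * ψ₂ (n : ZMod r₂) := fun n => prodc_apply ψ₁ ψ₂ n
  have p21 : ∀ n : ℕ, prodc ψ₁ ψ₂ (n : ZMod (r₁ * r₂)) =
      ψ₂ (n : ZMod r₂) * ψ₁ (n : ZMod r₁) := fun n => by rw [p12, mul_comm]
  have hz₁ : ∀ i, 0 ≤ ψ₁.zetaMul (p ^ i) := fun i => DirichletCharacter.zetaMul_nonneg hs₁ _
  have hz₂ : ∀ i, 0 ≤ ψ₂.zetaMul (p ^ i) := fun i => DirichletCharacter.zetaMul_nonneg hs₂ _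
  have hq₁ := MulChar.isQuadratic_iff_sq_eq_one.mpr hs₁ (p : ZMod r₁)
  have hq₂ := MulChar.isQuadratic_iff_sq_eq_one.mpr hs₂ (p : ZMod r₂)
  by_cases hy : 0 ≤ ψ₂ (p : ZMod r₂)
  · refine S1_mul_pow_nonneg hp hz₁ (fun i => ?_) k
    rw [S1_pair ψ₁ ψ₂ (prodc ψ₁ ψ₂) p12 (hne i)]
    push_cast
    rw [map_pow]
    exact mul_nonneg (pow_nonneg hy i) (hz₁ i)
  by_cases hx : 0 ≤ ψ₁ (p : ZMod r₁)
  · have e : ψ₁.zetaMul * (S1_X ψ₂ * S1_X (prodc ψ₁ ψ₂)) =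
        ψ₂.zetaMul * (S1_X ψ₁ * S1_X (prodc ψ₁ ψ₂)) := by
      rw [S1_zetaMul, S1_zetaMul]; ring
    rw [e]
    refine S1_mul_pow_nonneg hp hz₂ (fun i => ?_) k
    rw [S1_pair ψ₂ ψ₁ (prodc ψ₁ ψ₂) p21 (hne i)]
    push_cast
    rw [map_pow]
    exact mul_nonneg (pow_nonneg hx i) (hz₂ i)
  · have hx1 : ψ₁ (p : ZMod r₁) = -1 := by
      rcases hq₁ with h | h | h
      · exact absurd (by rw [h]) hx
      · exact absurd (by rw [h]; exact zero_le_one) hx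
      · exact h
    have hy1 : ψ₂ (p : ZMod r₂) = -1 := by
      rcases hq₂ with h | h | h
      · exact absurd (by rw [h]) hy
      · exact absurd (by rw [h]; exact zero_le_one) hy
      · exact h
    refine S1_mul_pow_nonneg hp hz₁ (fun i => ?_) k
    rw [S1_pair ψ₁ ψ₂ (prodc ψ₁ ψ₂) p12 (hne i), S1_zetaMul_pow ψ₁ hp]
    push_cast
    rw [map_pow, hx1, hy1, neg_one_geom_sum]
    split_ifs with h
    · rw [mul_zero]
    · have : Even i := by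
        rw [Nat.even_add_one, not_not] at h
        exact h
      rw [this.neg_one_pow, one_mul]
      exact zero_le_one

theorem S1_summable {r : ℕ} [NeZero r] (ψ : DirichletCharacter ℂ r) {s : ℂ} (hs : 1 < s.re) :
    LSeriesSummable (fun n => S1_X ψ n) s :=
  (LSeriesSummable_congr _ fun h => (S1_X_apply ψ h)).mpr <|
    ZMod.LSeriesSummable_of_one_lt_re ψ hs

theorem S1_LSeries {r : ℕ} [NeZero r] (ψ : DirichletCharacter ℂ r) {s : ℂ} (hs : 1 < s.re) :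
    LSeries (fun n => S1_X ψ n) s = ψ.LFunction s := by
  rw [ψ.LFunction_eq_LSeries hs]
  exact LSeries_congr (fun h => S1_X_apply ψ h) s

/-- Take the arithmetic function `b = (1 * ψ₁) * (ψ₂ · (1 * ψ₁))`, `b(n) = ∑_{d e = n} ρ(d) ψ₂(e) ρ(e)`,
`ρ(n) = ∑_{d ∣ n} ψ₁(d)` (`= DirichletCharacter.zetaMul ψ₁`, and `zetaMul_nonneg` in
`Mathlib/NumberTheory/LSeries/Nonvanishing.lean` or nearby); `b(0) = 0`, `b(1) = 1`.
L-SERIES: for `Re s > 1`, `LSeries_mul'`/`LSeries_convolution`: `LSeries (1 * ψ₁) = ζ L(ψ₁)`;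
`ψ₂ · (1 * ψ₁) = ψ₂ * (ψ₁ψ₂)` (complete multiplicativity of `ψ₂`; `prodc_apply`), so its L-series is
`L(ψ₂) L(prodc ψ₁ ψ₂)`; `DirichletCharacter.LFunction_eq_LSeries`, everything is summable.
NON-NEGATIVITY: `b` is multiplicative (`ArithmeticFunction.IsMultiplicative.mul`, `.pmul`), so by
`IsMultiplicative.multiplicative_factorization` it is enough to show `b(p^k) ≥ 0`. With
`x = ψ₁(p)`, `y = ψ₂(p)`, both in `{0, 1, -1}` (`ψᵢ ^ 2 = 1`):
`b(p^k) = ∑_{i+j=k} ρ(p^i) y^j ρ(p^j)`, `ρ(p^i) = ∑_{l ≤ i} x^l`.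
`x = 0`: `ρ = 1`, `b(p^k) = ∑_{j ≤ k} y^j ≥ 0`. `x = -1`: `ρ(p^i) = 1` for `i` even, `0` for `i` odd, so
`b(p^k) = 0` for `k` odd and `∑_{j even} y^j ≥ 0` for `k` even. `x = 1`: `ρ(p^i) = i + 1`; for `y = 0, 1`
clear; for `y = -1`: `b(p^k) = ∑_{i+j=k} (i+1)(j+1)(-1)^j`, which is `k/2 + 1` for `k` even and `0` for
`k` odd (coefficients of `1/(1-x^2)^2`; by induction on `k`, e.g. first prove
`∑_{j ≤ k} (j+1)(-1)^j` in closed form and then sum). Finally let `a n = (b n).re` (all values are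
real: `conj b = b`; or build `b` over `ℝ` from the real values `(ψᵢ n).re`). -/
theorem coeff_exists (r₁ r₂ : ℕ) [NeZero r₁] [NeZero r₂] (ψ₁ : DirichletCharacter ℂ r₁)
    (ψ₂ : DirichletCharacter ℂ r₂) (hs₁ : ψ₁ ^ 2 = 1) (hs₂ : ψ₂ ^ 2 = 1) :
    ∃ a : ℕ → ℝ, (∀ n, 0 ≤ a n) ∧ a 1 = 1 ∧ ∀ s : ℂ, 1 < s.re →
      LSeriesSummable (fun n => (a n : ℂ)) s ∧
      LSeries (fun n => (a n : ℂ)) s =
        riemannZeta s * (ψ₁.LFunction s * ψ₂.LFunction s * (prodc ψ₁ ψ₂).LFunction s) := by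
  set b : ArithmeticFunction ℂ := ψ₁.zetaMul * (S1_X ψ₂ * S1_X (prodc ψ₁ ψ₂)) with hb
  have hmult : b.IsMultiplicative :=
    (DirichletCharacter.isMultiplicative_zetaMul ψ₁).mul
      ((S1_X_mult ψ₂).mul (S1_X_mult (prodc ψ₁ ψ₂)))
  have hnn : ∀ n, 0 ≤ b n := by
    intro n
    rcases eq_or_ne n 0 with rfl | hn
    · simp only [ArithmeticFunction.map_zero, le_refl]
    · rw [hmult.multiplicative_factorization _ hn]
      exact Finset.prod_nonneg fun p hp =>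
        S1_nonneg_pow r₁ r₂ ψ₁ ψ₂ hs₁ hs₂ (Nat.prime_of_mem_primeFactors hp) _
  have hre : ∀ n, (((b n).re : ℝ) : ℂ) = b n := fun n => (Complex.eq_re_of_ofReal_le (hnn n)).symm
  refine ⟨fun n => (b n).re, fun n => (Complex.nonneg_iff.1 (hnn n)).1, ?_, fun s hs => ?_⟩
  · show (b 1).re = 1
    rw [hmult.map_one, Complex.one_re]
  · have e : (fun n => (((b n).re : ℝ) : ℂ)) = fun n => b n := funext hre
    rw [e]
    have z1 : LSeriesSummable (fun n => (ArithmeticFunction.zeta : ArithmeticFunction ℂ) n) s :=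
      ArithmeticFunction.LSeriesSummable_zeta_iff.mpr hs
    have s1 := S1_summable ψ₁ hs
    have s2 := S1_summable ψ₂ hs
    have s12 := S1_summable (prodc ψ₁ ψ₂) hs
    have za : LSeriesSummable (fun n => ψ₁.zetaMul n) s := ψ₁.LSeriesSummable_zetaMul hs
    have sb := ArithmeticFunction.LSeriesSummable_mul s2 s12
    refine ⟨ArithmeticFunction.LSeriesSummable_mul za sb, ?_⟩
    rw [hb, ArithmeticFunction.LSeries_mul' za sb, ArithmeticFunction.LSeries_mul' s2 s12,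
      S1_zetaMul, ArithmeticFunction.LSeries_mul' z1 s1, S1_LSeries ψ₁ hs, S1_LSeries ψ₂ hs,
      S1_LSeries (prodc ψ₁ ψ₂) hs]
    have hz : LSeries (fun n => (ArithmeticFunction.zeta : ArithmeticFunction ℂ) n) s =
        riemannZeta s := by
      rw [← ArithmeticFunction.LSeries_zeta_eq_riemannZeta hs]
      rfl
    rw [hz]
    ring

end Pool.Agent.Lib.H57S
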