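import Pool.Agent.Lib.H57S.Defs

/-!
# Chunk S2A: the lower bound for the residue (pure complex analysis)
-/

open Finset
open scoped ComplexOrder

namespace Pool.Agent.Lib.H57S

open Pool.Agent.Lib.H68T

open Nat in
theorem S2A_inv (k : ℕ) : iteratedDeriv k (fun s : ℂ => (s - 1)⁻¹) (3 / 2 : ℂ) =
    (-1) ^ k * (k ! : ℂ) * 2 ^ (k + 1) := by
  rw [iteratedDeriv_eq_iterate]
  have h := iter_deriv_inv_linear_sub k (1 : ℂ) 1
  simp only [one_mul, one_pow, mul_one] at h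
  rw [h]
  have : ((3 / 2 : ℂ) - 1) = (2 : ℂ)⁻¹ := by norm_num
  simp only [this]
  rw [inv_zpow, ← zpow_neg]
  congr 1
  have : (-(-1 - (k : ℤ))) = ((k + 1 : ℕ) : ℤ) := by push_cast; ring
  rw [this, zpow_natCast]

theorem S2A_re_sum (a : ℕ → ℝ) (ha : ∀ n, 0 ≤ a n) (ha1 : a 1 = 1)
    (hs : LSeriesSummable (fun n => (a n : ℂ)) (((3 / 2 : ℝ)) : ℂ)) :
    1 ≤ (LSeries (fun n => (a n : ℂ)) ((3 / 2 : ℝ) : ℂ)).re := by
  have h1 := hs.hasSum
  have h2 := Complex.hasSum_re h1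
  have h3 : ∀ n, 0 ≤ (LSeries.term (fun n => (a n : ℂ)) (((3 / 2 : ℝ)) : ℂ) n).re := by
    intro n
    have : 0 ≤ LSeries.term (fun n => (a n : ℂ)) (((3 / 2 : ℝ)) : ℂ) n :=
      LSeries.term_nonneg (by simpa using ha n) _
    exact (Complex.nonneg_iff.1 this).1
  have h4 : (LSeries.term (fun n => (a n : ℂ)) (((3 / 2 : ℝ)) : ℂ) 1).re = 1 := by
    rw [LSeries.term_of_ne_zero one_ne_zero]
    simp [ha1]
  have h5 := le_hasSum h2 1 (fun j _ => h3 j)
  rw [h4] at h5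
  exact h5

/-- Let `F = dslope h 1` (entire: `Differentiable.dslope`-type lemma, `F s = (h s - lam)/(s - 1)` for
`s ≠ 1`), `c = 3/2`, `c_k = iteratedDeriv k F c / k!`.
(1) On the circle `|s - 3/2| = 1` one has `|s - 1| ≥ 1/2`, so `‖F‖ ≤ 2 (M + M) = 4 M` and
`‖c_k‖ ≤ 4 M` (`norm_iteratedDeriv_le_of_forall_mem_sphere_norm_le`).
(2) Near `3/2`, `F s = LSeries a s - lam/(s - 1)`, so `(-1)^k c_k = b_k - lam 2^(k+1)` with
`b_k = (-1)^k iteratedDeriv k (LSeries a) (3/2) / k!`, which is real and `≥ 0`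
(`LSeries.iteratedDeriv_alternating`), and `b_0 = ∑ a(n) n^(-3/2) ≥ a 1 = 1`
(`1/(s-1) = ∑ (-1)^k 2^(k+1) (s - 3/2)^k`; `iteratedDeriv` of the inverse).
(3) Put `u = 3/2 - β`, `1/2 < u ≤ 5/8`. Taylor (`Complex.hasSum_taylorSeries_of_entire`):
`F β = ∑ c_k (-u)^k = ∑ (-1)^k c_k u^k`, and `F β = (0 - lam)/(β - 1) = lam/(1 - β)`. The tail `k ≥ K`
has norm `≤ 4 M u^K/(1 - u) ≤ (32/3) M (5/8)^K ≤ 1/2` by `hK`. The head is
`∑_{k<K} b_k u^k - 2 lam ∑_{k<K} (2u)^k`, and `2u - 1 = 2 (1 - β)`, so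
`2 ∑_{k<K} (2u)^k = ((2u)^K - 1)/(1 - β)`. Hence
`lam (2u)^K/(1 - β) = ∑_{k<K} b_k u^k + tail`; the first sum is real and `≥ b_0 ≥ 1` (`K ≥ 1`), so
`‖lam‖ (3 - 2β)^K/(1 - β) ≥ 1 - 1/2`. -/
theorem residue_lower (h : ℂ → ℂ) (hh : Differentiable ℂ h) (lam : ℂ) (hlam : h 1 = lam)
    (a : ℕ → ℝ) (ha : ∀ n, 0 ≤ a n) (ha1 : a 1 = 1)
    (hsum : ∀ s : ℂ, 1 < s.re → LSeriesSummable (fun n => (a n : ℂ)) s)
    (hL : ∀ s : ℂ, 1 < s.re → LSeries (fun n => (a n : ℂ)) s = h s / (s - 1))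
    (M : ℝ) (hM : ∀ s : ℂ, ‖s - 3 / 2‖ = 1 → ‖h s‖ ≤ M) (hlM : ‖lam‖ ≤ M)
    (β : ℝ) (hβ : 7 / 8 ≤ β) (hβ1 : β < 1) (hz : h β = 0) (K : ℕ) (hK1 : 1 ≤ K)
    (hK : 22 * M * (5 / 8 : ℝ) ^ K ≤ 1) :
    (1 - β) / 2 ≤ ‖lam‖ * (3 - 2 * β) ^ K := by
  have hM0 : 0 ≤ M := (norm_nonneg _).trans hlM
  set F : ℂ → ℂ := dslope h 1 with hF
  have hFd : Differentiable ℂ F := by
    rw [← differentiableOn_univ]
    exact (Complex.differentiableOn_dslope Filter.univ_mem).2 hh.differentiableOn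
  have hFs : ∀ s : ℂ, s ≠ 1 → F s = h s / (s - 1) - lam * (s - 1)⁻¹ := by
    intro s hs
    rw [hF, dslope_of_ne _ hs, slope_def_field, hlam]
    ring
  set c : ℂ := 3 / 2 with hc
  -- (1)
  have hbd : ∀ k : ℕ, ‖iteratedDeriv k F c‖ ≤ (k.factorial : ℝ) * (4 * M) := by
    intro k
    have := Complex.norm_iteratedDeriv_le_of_forall_mem_sphere_norm_le (c := c) (R := 1)
      (C := 4 * M) (f := F) k one_pos hFd.diffContOnCl ?_
    · simpa using this
    · intro z hz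
      rw [mem_sphere_iff_norm] at hz
      have h1 : 1 / 2 ≤ ‖z - 1‖ := by
        have e : z - c = (z - 1) - (1 / 2 : ℂ) := by rw [hc]; ring
        have h2 : ‖z - c‖ ≤ ‖z - 1‖ + ‖(1 / 2 : ℂ)‖ := by rw [e]; exact norm_sub_le _ _
        have h3 : ‖(1 / 2 : ℂ)‖ = 1 / 2 := by norm_num
        rw [hz, h3] at h2
        linarith
      have hz1 : z ≠ 1 := by
        intro h0
        rw [h0, sub_self, norm_zero] at h1
        norm_num at h1
      have hpos : 0 < ‖z - 1‖ := by linarith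
      rw [hFs z hz1, ← div_eq_mul_inv, ← sub_div, norm_div, div_le_iff₀ hpos]
      calc ‖h z - lam‖ ≤ ‖h z‖ + ‖lam‖ := norm_sub_le _ _
        _ ≤ M + M := add_le_add (hM z hz) hlM
        _ = 4 * M * (1 / 2) := by ring
        _ ≤ 4 * M * ‖z - 1‖ := mul_le_mul_of_nonneg_left h1 (by positivity)
  -- (2)
  have habs : LSeries.abscissaOfAbsConv (fun n => (a n : ℂ)) < ((3 / 2 : ℝ) : EReal) := by
    have h1 : LSeries.abscissaOfAbsConv (fun n => (a n : ℂ)) ≤ ((1 : ℝ) : EReal) :=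
      LSeries.abscissaOfAbsConv_le_of_forall_lt_LSeriesSummable fun y hy =>
        hsum y (by simpa using hy)
    exact h1.trans_lt (by exact_mod_cast (by norm_num : (1 : ℝ) < 3 / 2))
  have hcr : (((3 / 2 : ℝ)) : ℂ) = c := by rw [hc]; push_cast; ring
  have hEv : F =ᶠ[nhds c] fun s => LSeries (fun n => (a n : ℂ)) s - lam * (s - 1)⁻¹ := by
    have : {s : ℂ | 1 < s.re} ∈ nhds c := by
      refine (isOpen_lt continuous_const Complex.continuous_re).mem_nhds ?_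
      rw [← hcr]; simp; norm_num
    filter_upwards [this] with s hs
    have hs1 : s ≠ 1 := by
      rintro rfl
      simp at hs
    rw [hFs s hs1, hL s hs]
  have hder : ∀ k : ℕ, iteratedDeriv k F c =
      iteratedDeriv k (LSeries (fun n => (a n : ℂ))) c -
        lam * ((-1) ^ k * (k.factorial : ℂ) * 2 ^ (k + 1)) := by
    intro k
    rw [hEv.iteratedDeriv_eq k]
    have hg : ContDiffAt ℂ k (fun s : ℂ => lam * (s - 1)⁻¹) c := by
      refine contDiffAt_const.mul (ContDiffAt.inv (contDiffAt_id.sub contDiffAt_const) ?_)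
      rw [hc]; norm_num
    have hf : ContDiffAt ℂ k (LSeries (fun n => (a n : ℂ))) c := by
      have h1 := LSeries_analyticOnNhd (fun n => (a n : ℂ)) c (by
        rw [← hcr]; simpa using habs)
      exact h1.contDiffAt
    rw [iteratedDeriv_fun_sub hf hg, iteratedDeriv_const_mul_field, hc, S2A_inv]
  set b : ℕ → ℂ := fun k => (-1) ^ k * iteratedDeriv k (LSeries (fun n => (a n : ℂ))) c /
    (k.factorial : ℂ) with hb
  have hb0 : ∀ k, 0 ≤ b k := by
    intro k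
    have h1 := LSeries.iteratedDeriv_alternating (a := fun n => (a n : ℂ))
      (by intro n; simpa using ha n) habs k
    rw [hcr] at h1
    have h2 : (0 : ℂ) ≤ ((k.factorial : ℝ)⁻¹ : ℝ) := by
      rw [Complex.zero_le_real]; positivity
    have h3 : b k = ((-1) ^ k * iteratedDeriv k (LSeries (fun n => (a n : ℂ))) c) *
        (((k.factorial : ℝ)⁻¹ : ℝ) : ℂ) := by
      rw [hb]; push_cast; ring
    rw [h3]
    exact mul_nonneg h1 h2
  have hb00 : 1 ≤ (b 0).re := by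
    rw [hb]
    simp only [pow_zero, one_mul, iteratedDeriv_zero, Nat.factorial_zero, Nat.cast_one, div_one]
    rw [← hcr]
    exact S2A_re_sum a ha ha1 (hsum _ (by simp; norm_num))
  -- (3)
  set u : ℝ := 3 / 2 - β with hu
  have hu1 : 1 / 2 < u := by rw [hu]; linarith
  have hu2 : u ≤ 5 / 8 := by rw [hu]; linarith
  have hTay := Complex.hasSum_taylorSeries_of_entire hFd c (β : ℂ)
  set T : ℕ → ℂ := fun k => ((k.factorial : ℂ))⁻¹ • ((β : ℂ) - c) ^ k • iteratedDeriv k F c with hT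
  have hTb : ∀ k, T k = b k * (u : ℂ) ^ k - 2 * lam * (2 * (u : ℂ)) ^ k := by
    intro k
    rw [hT]
    simp only [smul_eq_mul]
    rw [hder k, hb]
    have e1 : ((β : ℂ) - c) = (-1) * (u : ℂ) := by rw [hc, hu]; push_cast; ring
    have hk : (k.factorial : ℂ) ≠ 0 := by exact_mod_cast k.factorial_ne_zero
    have e2 : ((-1 : ℂ)) ^ k * (-1) ^ k = 1 := by rw [← pow_add, Even.neg_one_pow ⟨k, rfl⟩]
    rw [e1, mul_pow, mul_pow]
    field_simp
    linear_combination (-(lam * 2 ^ k * 2 * (k.factorial : ℂ))) * e2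
  have hTn : ∀ k, ‖T k‖ ≤ 4 * M * u ^ k := by
    intro k
    rw [hT]
    simp only [smul_eq_mul, norm_mul, norm_inv, norm_pow]
    have e1 : ‖(β : ℂ) - c‖ = u := by
      have : (β : ℂ) - c = ((-u : ℝ) : ℂ) := by rw [hc, hu]; push_cast; ring
      rw [this, Complex.norm_real, Real.norm_eq_abs, abs_neg, abs_of_pos (by linarith)]
    have hk : (0 : ℝ) < k.factorial := by exact_mod_cast k.factorial_pos
    rw [e1, Complex.norm_natCast]
    calc (k.factorial : ℝ)⁻¹ * (u ^ k * ‖iteratedDeriv k F c‖)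
        ≤ (k.factorial : ℝ)⁻¹ * (u ^ k * ((k.factorial : ℝ) * (4 * M))) := by
          have := hbd k
          have : 0 ≤ u ^ k := pow_nonneg (by linarith) k
          gcongr
      _ = 4 * M * u ^ k := by field_simp
  have hFβ : F β = lam / (1 - β) := by
    have h1 : (β : ℂ) ≠ 1 := by
      intro h0
      have : β = 1 := by exact_mod_cast h0
      linarith
    have h2 : (β : ℂ) - 1 ≠ 0 := sub_ne_zero.2 h1
    have h3 : (1 : ℂ) - β ≠ 0 := sub_ne_zero.2 h1.symm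
    rw [hFs _ h1, hz, zero_div, zero_sub, eq_div_iff h3, neg_mul, mul_assoc]
    have h4 : ((β : ℂ) - 1)⁻¹ * (1 - β) = -1 := by
      rw [← neg_sub (β : ℂ) 1, mul_neg, inv_mul_cancel₀ h2]
    rw [h4]; ring
  -- split
  have hTs : Summable T := hTay.summable
  have hsplit : (∑ k ∈ range K, T k) + ∑' k, T (k + K) = lam / (1 - β) := by
    rw [hTs.sum_add_tsum_nat_add K, hTay.tsum_eq, hFβ]
  have hu0 : 0 ≤ u := by linarith
  have hu11 : u < 1 := by linarith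
  have htail : ‖∑' k, T (k + K)‖ ≤ 1 / 2 := by
    have hg : HasSum (fun k => 4 * M * u ^ K * u ^ k) (4 * M * u ^ K * (1 - u)⁻¹) :=
      (hasSum_geometric_of_lt_one hu0 hu11).mul_left _
    have h1 : ‖∑' k, T (k + K)‖ ≤ 4 * M * u ^ K * (1 - u)⁻¹ := by
      refine tsum_of_norm_bounded hg fun k => ?_
      calc ‖T (k + K)‖ ≤ 4 * M * u ^ (k + K) := hTn _
        _ = _ := by rw [pow_add]; ring
    have h2 : (1 - u)⁻¹ ≤ 8 / 3 := by
      rw [inv_le_comm₀ (by linarith) (by norm_num)]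
      linarith
    have h3 : u ^ K ≤ (5 / 8) ^ K := pow_le_pow_left₀ hu0 hu2 K
    have h4 : 4 * M * u ^ K * (1 - u)⁻¹ ≤ 4 * M * (5 / 8) ^ K * (8 / 3) := by
      have : 0 ≤ (1 - u)⁻¹ := inv_nonneg.2 (by linarith)
      gcongr
    nlinarith
  have h2u : ((2 * (u : ℂ)) - 1) * ∑ k ∈ range K, (2 * (u : ℂ)) ^ k = (2 * (u : ℂ)) ^ K - 1 := by
    rw [mul_comm]; exact geom_sum_mul _ _
  have hmain : lam * (2 * (u : ℂ)) ^ K = (1 - β) *
      ((∑ k ∈ range K, b k * (u : ℂ) ^ k) + ∑' k, T (k + K)) := by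
    have h3 : (1 : ℂ) - β ≠ 0 := by
      intro h0
      have : (1 : ℝ) - β = 0 := by exact_mod_cast h0
      linarith
    have h4 : (∑ k ∈ range K, T k) = (∑ k ∈ range K, b k * (u : ℂ) ^ k) -
        2 * lam * ∑ k ∈ range K, (2 * (u : ℂ)) ^ k := by
      rw [mul_sum, ← sum_sub_distrib]
      exact sum_congr rfl fun k _ => hTb k
    have h5 : (1 - (β : ℂ)) * ((∑ k ∈ range K, T k) + ∑' k, T (k + K)) = lam := by
      rw [hsplit]; field_simp
    rw [h4] at h5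
    have h6 : (2 * (u : ℂ)) - 1 = 2 * (1 - β) := by rw [hu]; push_cast; ring
    rw [h6] at h2u
    linear_combination (-lam) * h2u - h5
  have hB : 1 ≤ ‖∑ k ∈ range K, b k * (u : ℂ) ^ k‖ := by
    refine le_trans ?_ (Complex.re_le_norm _)
    rw [Complex.re_sum]
    have h1 : ∀ k, 0 ≤ (b k * (u : ℂ) ^ k).re := by
      intro k
      have h2 : (0 : ℂ) ≤ ((u ^ k : ℝ) : ℂ) := by
        rw [Complex.zero_le_real]; positivity
      have h3 := mul_nonneg (hb0 k) h2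
      push_cast at h3
      exact (Complex.nonneg_iff.1 h3).1
    have h2 : (b 0 * (u : ℂ) ^ 0).re ≤ ∑ k ∈ range K, (b k * (u : ℂ) ^ k).re :=
      single_le_sum (fun k _ => h1 k) (mem_range.2 hK1)
    rw [pow_zero, mul_one] at h2
    linarith
  have hn := congrArg norm hmain
  rw [norm_mul, norm_mul] at hn
  have e1 : ‖(2 * (u : ℂ)) ^ K‖ = (3 - 2 * β) ^ K := by
    have : 2 * (u : ℂ) = ((3 - 2 * β : ℝ) : ℂ) := by rw [hu]; push_cast; ring
    rw [this, norm_pow, Complex.norm_real, Real.norm_eq_abs, abs_of_nonneg (by linarith)]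
  have e2 : ‖(1 : ℂ) - β‖ = 1 - β := by
    have : (1 : ℂ) - β = ((1 - β : ℝ) : ℂ) := by push_cast; ring
    rw [this, Complex.norm_real, Real.norm_eq_abs, abs_of_nonneg (by linarith)]
  rw [e1, e2] at hn
  rw [hn]
  have h7 : 1 / 2 ≤ ‖(∑ k ∈ range K, b k * (u : ℂ) ^ k) + ∑' k, T (k + K)‖ := by
    have := norm_sub_le ((∑ k ∈ range K, b k * (u : ℂ) ^ k) + ∑' k, T (k + K))
      (∑' k, T (k + K))
    rw [add_sub_cancel_right] at this
    linarith
  have h8 : 0 ≤ 1 - β := by linarith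
  nlinarith

end Pool.Agent.Lib.H57S
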