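import Pool.Agent.Lib.H57S.S1
import Pool.Agent.Lib.H57S.S2A

/-!
# Chunk S2B: Estermann's inequality
-/

open Finset

namespace Pool.Agent.Lib.H57S

open Pool.Agent.Lib.H68T

/-- `residue_lower` for `h = gl2_Z · P`, `P s = L(s,ψ₁) L(s,ψ₂) L(s,ψ₁ψ₂)` (entire, by
`gl2_Z_differentiable` and `DirichletCharacter.differentiable_LFunction`), `lam = P 1`
(`gl2_Z_one`), the coefficients of `coeff_exists` (`gl2_Z_eq`: `ζ = gl2_Z/(s-1)`).
`R := r₁ r₂ ≥ 1`. On `|s - 3/2| = 1`: `1/2 ≤ Re s ≤ 5/2`, `|Im s| ≤ 1`, `‖s‖ ≤ 5/2`, so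
`‖gl2_Z s‖ ≤ 4·16 = 64` (`gl2_Z_bound`) and `‖P s‖ ≤ (5 r₁)(5 r₂)(5 r₁ r₂) = 125 R²`
(`LFunction_bound`): `M := 8000 R²`; `‖lam‖ ≤ 8 R² ≤ M`. Take
`K = ⌈log (22 M)/log (8/5)⌉₊` (`≥ 1`), `K ≤ log (22 M)/log (8/5) + 1`, `log (8/5) ≥ 2/5`
(`(8/5)^5 > e^2`, or `Real.one_sub_inv_le_log_of_pos`: `log (8/5) ≥ 3/8`, which gives `2/log(8/5) ≤ 16/3 ≤ 6`).
`(3 - 2β)^K = (1 + 2(1-β))^K ≤ exp (2 K (1-β)) ≤ exp (2(1-β)) (22 M)^(6 (1-β))`, and
`exp (2 (1-β)) ≤ exp (1/4) ≤ 2`, `22 M = 176000 R² ≤ 10^6 R²`. -/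
theorem estermann (r₁ r₂ : ℕ) [NeZero r₁] [NeZero r₂] (ψ₁ : DirichletCharacter ℂ r₁)
    (ψ₂ : DirichletCharacter ℂ r₂) (hs₁ : ψ₁ ^ 2 = 1) (hs₂ : ψ₂ ^ 2 = 1) (hψ₁ : ψ₁ ≠ 1)
    (hψ₂ : ψ₂ ≠ 1) (h12 : prodc ψ₁ ψ₂ ≠ 1) (β : ℝ) (hβ : 7 / 8 ≤ β) (hβ1 : β < 1)
    (hz : ψ₁.LFunction (β : ℂ) = 0) :
    1 - β ≤ 4 * (‖ψ₁.LFunction 1‖ * ‖ψ₂.LFunction 1‖ * ‖(prodc ψ₁ ψ₂).LFunction 1‖) *
      (10 ^ 6 * ((r₁ : ℝ) * r₂) ^ 2) ^ (6 * (1 - β)) := by
  obtain ⟨a, ha, ha1, hL⟩ := coeff_exists r₁ r₂ ψ₁ ψ₂ hs₁ hs₂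
  set P : ℂ → ℂ := fun s => ψ₁.LFunction s * ψ₂.LFunction s * (prodc ψ₁ ψ₂).LFunction s with hP
  set h : ℂ → ℂ := fun s => gl2_Z s * P s with hh
  have hr₁ : (1 : ℝ) ≤ r₁ := by
    have : 0 < r₁ := Nat.pos_of_ne_zero (NeZero.ne r₁)
    exact_mod_cast this
  have hr₂ : (1 : ℝ) ≤ r₂ := by
    have : 0 < r₂ := Nat.pos_of_ne_zero (NeZero.ne r₂)
    exact_mod_cast this
  set R : ℝ := (r₁ : ℝ) * r₂ with hR
  have hR1 : 1 ≤ R := one_le_mul_of_one_le_of_one_le hr₁ hr₂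
  have hR2 : 1 ≤ R ^ 2 := one_le_pow₀ hR1
  have hPd : Differentiable ℂ P :=
    ((DirichletCharacter.differentiable_LFunction hψ₁).mul
      (DirichletCharacter.differentiable_LFunction hψ₂)).mul
      (DirichletCharacter.differentiable_LFunction h12)
  have hhd : Differentiable ℂ h := gl2_Z_differentiable.mul hPd
  have hh1 : h 1 = P 1 := by simp only [hh]; rw [gl2_Z_one, one_mul]
  have hPn : ∀ s : ℂ, 1 / 2 ≤ s.re → ‖P s‖ ≤ (2 * r₁ * ‖s‖) * (2 * r₂ * ‖s‖) * (2 * R * ‖s‖) := by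
    intro s hs
    have b1 := LFunction_bound r₁ ψ₁ hψ₁ s hs
    have b2 := LFunction_bound r₂ ψ₂ hψ₂ s hs
    have b3 := LFunction_bound (r₁ * r₂) (prodc ψ₁ ψ₂) h12 s hs
    push_cast at b3
    simp only [hP]
    rw [norm_mul, norm_mul]
    gcongr
  have hM : ∀ s : ℂ, ‖s - 3 / 2‖ = 1 → ‖h s‖ ≤ 8000 * R ^ 2 := by
    intro s hs
    have e1 := Complex.abs_re_le_norm (s - 3 / 2)
    have e2 := Complex.abs_im_le_norm (s - 3 / 2)
    rw [hs] at e1 e2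
    have e3 : (s - 3 / 2).re = s.re - 3 / 2 := by simp
    have e4 : (s - 3 / 2).im = s.im := by simp
    rw [e3, abs_le] at e1
    rw [e4] at e2
    have e5 : ‖s‖ ≤ 5 / 2 := by
      have : s = (s - 3 / 2) + 3 / 2 := by ring
      calc ‖s‖ = ‖(s - 3 / 2) + 3 / 2‖ := by rw [← this]
        _ ≤ ‖s - 3 / 2‖ + ‖(3 / 2 : ℂ)‖ := norm_add_le _ _
        _ = 1 + 3 / 2 := by rw [hs]; norm_num
        _ = 5 / 2 := by norm_num
    have b1 := gl2_Z_bound s (by linarith) (by linarith)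
    have b2 := hPn s (by linarith)
    have b1' : ‖gl2_Z s‖ ≤ 64 := by
      refine b1.trans ?_
      have : 0 ≤ |s.im| := abs_nonneg _
      nlinarith
    have b2' : ‖P s‖ ≤ 125 * R ^ 2 := by
      refine b2.trans ?_
      have n0 := norm_nonneg s
      calc (2 * r₁ * ‖s‖) * (2 * r₂ * ‖s‖) * (2 * R * ‖s‖)
          ≤ (2 * r₁ * (5 / 2)) * (2 * r₂ * (5 / 2)) * (2 * R * (5 / 2)) := by gcongr
        _ = 125 * R ^ 2 := by rw [hR]; ring
    simp only [hh]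
    rw [norm_mul]
    calc ‖gl2_Z s‖ * ‖P s‖ ≤ 64 * (125 * R ^ 2) := by gcongr
      _ = _ := by ring
  have hlam : ‖P 1‖ ≤ 8000 * R ^ 2 := by
    have := hPn 1 (by norm_num)
    rw [norm_one] at this
    refine this.trans ?_
    have : (2 * r₁ * 1) * (2 * r₂ * 1) * (2 * R * 1) = 8 * R ^ 2 := by rw [hR]; ring
    rw [this]
    linarith
  have hzero : h β = 0 := by simp only [hh, hP]; rw [hz]; ring
  set X : ℝ := 22 * (8000 * R ^ 2) with hX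
  have hX1 : 1 < X := by rw [hX]; linarith
  have hlogX : 0 < Real.log X := Real.log_pos hX1
  have hl85 : 3 / 8 ≤ Real.log (8 / 5) := by
    have := Real.one_sub_inv_le_log_of_pos (x := (8 / 5 : ℝ)) (by norm_num)
    norm_num at this
    linarith
  have hl85p : 0 < Real.log (8 / 5) := by linarith
  set K : ℕ := ⌈Real.log X / Real.log (8 / 5)⌉₊ with hK
  have hK1 : 1 ≤ K := Nat.one_le_ceil_iff.2 (div_pos hlogX hl85p)
  have hK2 : Real.log X / Real.log (8 / 5) ≤ K := Nat.le_ceil _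
  have hK3 : (K : ℝ) < Real.log X / Real.log (8 / 5) + 1 :=
    Nat.ceil_lt_add_one (div_pos hlogX hl85p).le
  have hK4 : 22 * (8000 * R ^ 2) * (5 / 8 : ℝ) ^ K ≤ 1 := by
    rw [← hX]
    have h1 : Real.log X ≤ K * Real.log (8 / 5) := by rwa [div_le_iff₀ hl85p] at hK2
    have h2 : X ≤ (8 / 5 : ℝ) ^ K := by
      rw [← Real.log_le_log_iff (by linarith) (by positivity), Real.log_pow]
      exact h1
    have h3 : (5 / 8 : ℝ) ^ K = ((8 / 5 : ℝ) ^ K)⁻¹ := by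
      rw [← inv_pow]; norm_num
    rw [h3, ← div_eq_mul_inv, div_le_one (by positivity)]
    exact h2
  have hres := residue_lower h hhd (P 1) hh1 a ha ha1 (fun s hs => (hL s hs).1)
    (fun s hs => by
      have hs1 : s ≠ 1 := by rintro rfl; simp at hs
      have hs2 : s - 1 ≠ 0 := sub_ne_zero.2 hs1
      rw [(hL s hs).2]
      simp only [hh, hP]
      rw [gl2_Z_eq s hs1]
      field_simp)
    (8000 * R ^ 2) hM hlam β hβ hβ1 hzero K hK1 hK4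
  have hδ : 0 < 1 - β := by linarith
  have hpow : (3 - 2 * β) ^ K ≤ 2 * (10 ^ 6 * R ^ 2) ^ (6 * (1 - β)) := by
    have h1 : (3 - 2 * β) ≤ Real.exp (2 * (1 - β)) := by
      have := Real.add_one_le_exp (2 * (1 - β))
      linarith
    have h2 : (3 - 2 * β) ^ K ≤ Real.exp (K * (2 * (1 - β))) := by
      rw [Real.exp_nat_mul]
      exact pow_le_pow_left₀ (by linarith) h1 K
    have h3 : K * (2 * (1 - β)) ≤ 2 * (1 - β) + Real.log X * (6 * (1 - β)) := by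
      have h4 : Real.log X / Real.log (8 / 5) ≤ 3 * Real.log X := by
        rw [div_le_iff₀ hl85p]
        nlinarith
      nlinarith
    have h5 : Real.exp (2 * (1 - β)) ≤ 2 := by
      have h6 : Real.exp (2 * (1 - β)) ≤ Real.exp (1 / 4) := Real.exp_le_exp.2 (by linarith)
      have h7 : Real.exp (1 / 4) ^ 4 = Real.exp 1 := by
        rw [← Real.exp_nat_mul]; norm_num
      have h8 := Real.exp_one_lt_d9
      have h9 : Real.exp (1 / 4) ≤ 2 := by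
        by_contra hcon
        push Not at hcon
        have : (2 : ℝ) ^ 4 < Real.exp (1 / 4) ^ 4 := pow_lt_pow_left₀ hcon (by norm_num) (by norm_num)
        rw [h7] at this
        norm_num at this
        linarith
      linarith
    calc (3 - 2 * β) ^ K ≤ Real.exp (K * (2 * (1 - β))) := h2
      _ ≤ Real.exp (2 * (1 - β) + Real.log X * (6 * (1 - β))) := Real.exp_le_exp.2 h3
      _ = Real.exp (2 * (1 - β)) * X ^ (6 * (1 - β)) := by
          rw [Real.exp_add, Real.rpow_def_of_pos (by linarith)]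
      _ ≤ 2 * (10 ^ 6 * R ^ 2) ^ (6 * (1 - β)) := by
          have h10 : X ≤ 10 ^ 6 * R ^ 2 := by rw [hX]; nlinarith
          have h11 : X ^ (6 * (1 - β)) ≤ (10 ^ 6 * R ^ 2) ^ (6 * (1 - β)) :=
            Real.rpow_le_rpow (by linarith) h10 (by linarith)
          have h12 : 0 ≤ X ^ (6 * (1 - β)) := Real.rpow_nonneg (by linarith) _
          gcongr
  have hnP : ‖P 1‖ = ‖ψ₁.LFunction 1‖ * ‖ψ₂.LFunction 1‖ * ‖(prodc ψ₁ ψ₂).LFunction 1‖ := by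
    simp only [hP]; rw [norm_mul, norm_mul]
  rw [← hnP]
  have h13 := mul_le_mul_of_nonneg_left hpow (norm_nonneg (P 1))
  nlinarith

end Pool.Agent.Lib.H57S
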