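import Pool.Agent.Lib.H57S.Defs

/-!
# Chunk S3: `L(1,ψ) = O(log r)`
-/

open Finset

namespace Pool.Agent.Lib.H57S

open Pool.Agent.Lib.H68T

/-- For `r ≥ 100` this is `LFunction_near_one` at `s = 1`; for `r < 100`,
`‖L(1,ψ)‖ ≤ 2 r ≤ 200` by `LFunction_bound`. -/
theorem L1_log : ∃ C : ℝ, 0 < C ∧ ∀ (r : ℕ) [NeZero r] (ψ : DirichletCharacter ℂ r), ψ ≠ 1 →
    ‖ψ.LFunction 1‖ ≤ C * (1 + Real.log r) := by
  obtain ⟨C, hC, H⟩ := LFunction_near_one
  refine ⟨C + 200, by linarith, fun r _ ψ hψ => ?_⟩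
  have hr0 : 0 < r := Nat.pos_of_ne_zero (NeZero.ne r)
  have hr1 : (1 : ℝ) ≤ r := by exact_mod_cast hr0
  have hlog : 0 ≤ Real.log r := Real.log_nonneg hr1
  by_cases hr : 100 ≤ r
  · have h1 := H r ψ hr hψ 1 (by
      rw [sub_self, norm_zero]
      positivity)
    nlinarith
  · have h1 := LFunction_bound r ψ hψ 1 (by norm_num)
    rw [norm_one] at h1
    have h2 : (r : ℝ) ≤ 100 := by
      have : r ≤ 100 := by omega
      exact_mod_cast this
    nlinarith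

end Pool.Agent.Lib.H57S
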