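import Pool.Agent.Lib.H57S.S2B
import Pool.Agent.Lib.H57S.S3

/-!
# Chunk S4: Siegel's theorem
-/

open Finset

namespace Pool.Agent.Lib.H57S

open Pool.Agent.Lib.H68T

theorem S4_log_cube {ε r : ℝ} (hε : 0 < ε) (hr : 1 ≤ r) :
    (Real.log r) ^ 3 * r ^ (ε / 5) ≤ (5 / ε) ^ 3 * r ^ ε := by
  have hr0 : 0 ≤ r := by linarith
  have h1 : Real.log r ≤ r ^ (ε / 5) / (ε / 5) := Real.log_le_rpow_div hr0 (by positivity)
  have h0 : 0 ≤ Real.log r := Real.log_nonneg hr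
  have h2 : (Real.log r) ^ 3 ≤ (r ^ (ε / 5) / (ε / 5)) ^ 3 := pow_le_pow_left₀ h0 h1 3
  have h3 : (r ^ (ε / 5) / (ε / 5)) ^ 3 = (5 / ε) ^ 3 * (r ^ (ε / 5)) ^ 3 := by
    field_simp
  have h4 : (r ^ (ε / 5)) ^ 3 * r ^ (ε / 5) = r ^ (4 * (ε / 5)) := by
    rw [← pow_succ, ← Real.rpow_natCast, ← Real.rpow_mul hr0]
    congr 1; push_cast; ring
  have h5 : r ^ (4 * (ε / 5)) ≤ r ^ ε := Real.rpow_le_rpow_of_exponent_le hr (by linarith)
  have h6 : 0 ≤ r ^ (ε / 5) := Real.rpow_nonneg hr0 _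
  calc (Real.log r) ^ 3 * r ^ (ε / 5) ≤ ((5 / ε) ^ 3 * (r ^ (ε / 5)) ^ 3) * r ^ (ε / 5) := by
        rw [← h3]; exact mul_le_mul_of_nonneg_right h2 h6
    _ = (5 / ε) ^ 3 * r ^ (4 * (ε / 5)) := by rw [← h4]; ring
    _ ≤ _ := mul_le_mul_of_nonneg_left h5 (by positivity)

/-- all real zeros `< 1` are at distance `≥ c / r^ε` from `1` -/
theorem S4_claim (ε : ℝ) (hε : 0 < ε) (hε1 : ε ≤ 1) : ∃ c : ℝ, 0 < c ∧ ∀ (r : ℕ) [NeZero r]
    (ψ : DirichletCharacter ℂ r), ψ.IsPrimitive → ψ ≠ 1 → ψ ^ 2 = 1 → ∀ σ : ℝ,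
    σ < 1 → ψ.LFunction (σ : ℂ) = 0 → c / (r : ℝ) ^ ε ≤ 1 - σ := by
  by_cases hA : ∀ (r : ℕ) [NeZero r] (ψ : DirichletCharacter ℂ r), ψ.IsPrimitive → ψ ≠ 1 →
      ψ ^ 2 = 1 → ∀ σ : ℝ, σ < 1 → ψ.LFunction (σ : ℂ) = 0 → ε / 60 ≤ 1 - σ
  · refine ⟨ε / 60, by positivity, fun r _ ψ hp h1 h2 σ hσ hz => ?_⟩
    have hr : (1 : ℝ) ≤ r := by
      have : 0 < r := Nat.pos_of_ne_zero (NeZero.ne r)
      exact_mod_cast this
    have h3 : 1 ≤ (r : ℝ) ^ ε := Real.one_le_rpow hr hε.le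
    calc ε / 60 / (r : ℝ) ^ ε ≤ ε / 60 := div_le_self (by positivity) h3
      _ ≤ _ := hA r ψ hp h1 h2 σ hσ hz
  · push Not at hA
    obtain ⟨r₁, _, ψ₁, hp₁, hn₁, hs₁, β₁, hβ₁, hz₁, hβ₁e⟩ := hA
    obtain ⟨c₀, hc₀, H0⟩ := zero_elementary
    obtain ⟨C₁, hC₁, H1⟩ := L1_upper
    obtain ⟨C, hC, H2⟩ := L1_log
    have hr₁ : (1 : ℝ) ≤ r₁ := by
      have : 0 < r₁ := Nat.pos_of_ne_zero (NeZero.ne r₁)
      exact_mod_cast this
    have hl₁ : 0 ≤ Real.log r₁ := Real.log_nonneg hr₁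
    set A₁ : ℝ := C * (1 + Real.log r₁) with hA₁
    have hA₁p : 0 < A₁ := by positivity
    set B : ℝ := (10 ^ 6 * (r₁ : ℝ) ^ 2) ^ (ε / 10) with hB
    have hBp : 0 < B := Real.rpow_pos_of_pos (by positivity) _
    set D : ℝ := 4 * A₁ * C₁ * C * (2 + Real.log r₁) * (5 / ε) ^ 3 * B with hD
    have hDp : 0 < D := by positivity
    have hβ0 : 0 < 1 - β₁ := by linarith
    refine ⟨min (c₀ / 10 ^ 4) (min (c₀ / (r₁ : ℝ) ^ 2) (min ε ((1 - β₁) / D))),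
      by positivity, fun r _ ψ hp hn hs σ hσ hz => ?_⟩
    have hr : (1 : ℝ) ≤ r := by
      have : 0 < r := Nat.pos_of_ne_zero (NeZero.ne r)
      exact_mod_cast this
    have h3 : 1 ≤ (r : ℝ) ^ ε := Real.one_le_rpow hr hε.le
    have h3p : 0 < (r : ℝ) ^ ε := by linarith
    set m := min (c₀ / 10 ^ 4) (min (c₀ / (r₁ : ℝ) ^ 2) (min ε ((1 - β₁) / D))) with hm
    have hmp : 0 < m := by positivity
    have m1 : m ≤ c₀ / 10 ^ 4 := min_le_left _ _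
    have m2 : m ≤ c₀ / (r₁ : ℝ) ^ 2 := (min_le_right _ _).trans (min_le_left _ _)
    have m3 : m ≤ ε := (min_le_right _ _).trans ((min_le_right _ _).trans (min_le_left _ _))
    have m4 : m ≤ (1 - β₁) / D :=
      (min_le_right _ _).trans ((min_le_right _ _).trans (min_le_right _ _))
    by_cases hr100 : 100 ≤ r
    swap
    · have h4 := H0 r ψ hn hs σ hσ hz
      have h5 : (r : ℝ) ^ 2 ≤ 10 ^ 4 := by
        have : (r : ℝ) ≤ 100 := by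
          have : r ≤ 100 := by omega
          exact_mod_cast this
        nlinarith
      calc m / (r : ℝ) ^ ε ≤ m := div_le_self hmp.le h3
        _ ≤ c₀ / 10 ^ 4 := m1
        _ ≤ c₀ / (r : ℝ) ^ 2 := div_le_div_of_nonneg_left hc₀.le (by positivity) h5
        _ ≤ _ := h4
    by_cases hsame : (⟨r₁, ψ₁⟩ : Σ r : ℕ, DirichletCharacter ℂ r) = ⟨r, ψ⟩
    · have h4 := H0 r ψ hn hs σ hσ hz
      have h5 : r₁ = r := congrArg Sigma.fst hsame
      calc m / (r : ℝ) ^ ε ≤ m := div_le_self hmp.le h3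
        _ ≤ c₀ / (r₁ : ℝ) ^ 2 := m2
        _ = c₀ / (r : ℝ) ^ 2 := by rw [h5]
        _ ≤ _ := h4
    have hrR : (100 : ℝ) ≤ r := by exact_mod_cast hr100
    have hlog1 : 1 ≤ Real.log r := by
      rw [Real.le_log_iff_exp_le (by linarith)]
      have := Real.exp_one_lt_d9
      linarith
    by_cases hfar : σ < 1 - 1 / Real.log r
    · have h4 : Real.log r ≤ (r : ℝ) ^ ε / ε := Real.log_le_rpow_div (by linarith) hε
      have h5 : ε / (r : ℝ) ^ ε ≤ 1 / Real.log r := by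
        rw [div_le_div_iff₀ h3p (by linarith), one_mul]
        rw [le_div_iff₀ hε] at h4
        linarith
      calc m / (r : ℝ) ^ ε ≤ ε / (r : ℝ) ^ ε := div_le_div_of_nonneg_right m3 h3p.le
        _ ≤ 1 / Real.log r := h5
        _ ≤ 1 - σ := by linarith
    · push Not at hfar
      have hne := prodc_ne_one r₁ r ψ₁ ψ hp₁ hp hs hsame
      have e1 := estermann r₁ r ψ₁ ψ hs₁ hs hn₁ hn hne β₁ (by linarith) hβ₁ hz₁
      have b1 := H2 r₁ ψ₁ hn₁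
      have b2 := H1 r ψ hr100 hn σ hfar hσ.le hz
      have b3 := H2 (r₁ * r) (prodc ψ₁ ψ) hne
      have hσ0 : 0 < 1 - σ := by linarith
      have b3' : ‖(prodc ψ₁ ψ).LFunction 1‖ ≤ C * ((2 + Real.log r₁) * Real.log r) := by
        refine b3.trans (mul_le_mul_of_nonneg_left ?_ hC.le)
        push_cast
        rw [Real.log_mul (by positivity) (by positivity)]
        nlinarith
      have b4 : (10 ^ 6 * ((r₁ : ℝ) * r) ^ 2) ^ (6 * (1 - β₁)) ≤ B * (r : ℝ) ^ (ε / 5) := by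
        have h1 : (1 : ℝ) ≤ 10 ^ 6 * ((r₁ : ℝ) * r) ^ 2 := by
          have : (1 : ℝ) ≤ (r₁ : ℝ) * r := one_le_mul_of_one_le_of_one_le hr₁ hr
          nlinarith
        calc (10 ^ 6 * ((r₁ : ℝ) * r) ^ 2) ^ (6 * (1 - β₁))
            ≤ (10 ^ 6 * ((r₁ : ℝ) * r) ^ 2) ^ (ε / 10) :=
              Real.rpow_le_rpow_of_exponent_le h1 (by linarith)
          _ = ((10 ^ 6 * (r₁ : ℝ) ^ 2) * (r : ℝ) ^ 2) ^ (ε / 10) := by
              congr 1; ring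
          _ = B * ((r : ℝ) ^ 2) ^ (ε / 10) := by
              rw [Real.mul_rpow (by positivity) (by positivity)]
          _ = B * (r : ℝ) ^ (ε / 5) := by
              rw [← Real.rpow_natCast, ← Real.rpow_mul (by positivity)]
              congr 2; push_cast; ring
      have n1 := norm_nonneg (ψ₁.LFunction 1)
      have n2 := norm_nonneg (ψ.LFunction 1)
      have n3 := norm_nonneg ((prodc ψ₁ ψ).LFunction 1)
      have e2 : 1 - β₁ ≤ 4 * (A₁ * (C₁ * (1 - σ) * (Real.log r) ^ 2) *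
          (C * ((2 + Real.log r₁) * Real.log r))) * (B * (r : ℝ) ^ (ε / 5)) := by
        refine e1.trans ?_
        have hp4 : 0 ≤ (10 ^ 6 * ((r₁ : ℝ) * r) ^ 2) ^ (6 * (1 - β₁)) :=
          Real.rpow_nonneg (by positivity) _
        gcongr
      have e3 := S4_log_cube (r := (r : ℝ)) hε hr
      have e4 : 1 - β₁ ≤ D * (r : ℝ) ^ ε * (1 - σ) := by
        have hK : 0 ≤ 4 * A₁ * C₁ * C * (2 + Real.log r₁) * B * (1 - σ) := by positivity
        calc 1 - β₁ ≤ _ := e2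
          _ = (4 * A₁ * C₁ * C * (2 + Real.log r₁) * B * (1 - σ)) *
              ((Real.log r) ^ 3 * (r : ℝ) ^ (ε / 5)) := by ring
          _ ≤ (4 * A₁ * C₁ * C * (2 + Real.log r₁) * B * (1 - σ)) *
              ((5 / ε) ^ 3 * (r : ℝ) ^ ε) := mul_le_mul_of_nonneg_left e3 hK
          _ = _ := by rw [hD]; ring
      calc m / (r : ℝ) ^ ε ≤ ((1 - β₁) / D) / (r : ℝ) ^ ε :=
            div_le_div_of_nonneg_right m4 h3p.le
        _ ≤ 1 - σ := by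
            rw [div_div, div_le_iff₀ (by positivity)]
            linarith

/-- **Siegel.** Let `ε ≤ 1` without loss. CASE A: no real primitive `ψ₁ ≠ 1` has a real zero in
`[1 - ε/60, 1)`: take `c = ε/60` (`r^ε ≥ 1`; at `σ = 1` use
`DirichletCharacter.LFunction_ne_zero_of_one_le_re`). CASE B: fix `(r₁, ψ₁, β₁)` with
`1 - ε/60 ≤ β₁ < 1`, a zero. Let `(r, ψ)` be another one, with a zero `σ < 1`. If `r < 100`, or
`(r, ψ) = (r₁, ψ₁)`, `zero_elementary` gives `1 - σ ≥ c₀/r² ≥ c₀/max(100, r₁)²`. If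
`σ < 1 - 1/log r`, then `1 - σ > 1/log r ≥ c r^(-ε)`. Otherwise `L1_upper` gives
`‖L(1,ψ)‖ ≤ C₁ (1-σ) log² r`, and `estermann` (with `ψ₂ = ψ`; `prodc_ne_one`) and `L1_log` give
`1 - β₁ ≤ 4 C(1 + log r₁) · C₁ (1-σ) log² r · C (1 + log r₁ + log r) · (10^6 r₁²)^(ε/10) r^(ε/5)`,
so `1 - σ ≥ c₂ r^(-ε/5)/(1 + log r)^3 ≥ c₃ r^(-ε)` (`Real.log_le_rpow_div`), `c₃` depending on
`ε, r₁, β₁` only. -/
theorem siegel (ε : ℝ) (hε : 0 < ε) : ∃ c : ℝ, 0 < c ∧ ∀ (r : ℕ) [NeZero r]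
    (ψ : DirichletCharacter ℂ r), ψ.IsPrimitive → ψ ≠ 1 → ψ ^ 2 = 1 → ∀ σ : ℝ,
    1 - c / (r : ℝ) ^ ε ≤ σ → σ ≤ 1 → ψ.LFunction (σ : ℂ) ≠ 0 := by
  obtain ⟨c, hc, H⟩ := S4_claim (min ε 1) (by positivity) (min_le_right _ _)
  refine ⟨c / 2, by positivity, fun r _ ψ hp h1 h2 σ hσ hσ1 hz => ?_⟩
  have hr : (1 : ℝ) ≤ r := by
    have : 0 < r := Nat.pos_of_ne_zero (NeZero.ne r)
    exact_mod_cast this
  rcases hσ1.lt_or_eq with hlt | heq
  · have h3 := H r ψ hp h1 h2 σ hlt hz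
    have h4 : (r : ℝ) ^ (min ε 1) ≤ (r : ℝ) ^ ε :=
      Real.rpow_le_rpow_of_exponent_le hr (min_le_left _ _)
    have h5 : 0 < (r : ℝ) ^ (min ε 1) := Real.rpow_pos_of_pos (by linarith) _
    have h6 : c / (r : ℝ) ^ ε ≤ c / (r : ℝ) ^ (min ε 1) :=
      div_le_div_of_nonneg_left hc.le h5 h4
    have h7 : 0 < c / (r : ℝ) ^ ε := div_pos hc (Real.rpow_pos_of_pos (by linarith) _)
    have h8 : c / 2 / (r : ℝ) ^ ε = (c / (r : ℝ) ^ ε) / 2 := by ring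
    rw [h8] at hσ
    linarith
  · subst heq
    exact DirichletCharacter.LFunction_ne_zero_of_one_le_re ψ (Or.inl h1) (by simp) hz

end Pool.Agent.Lib.H57S
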